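import Pool.Agent.SPT.NZ

/-!
# TRA: diagrams whose graph has small blocks (MP_42db45_gt; captain helper38)

`S` contains one crossing of every twist class, `Cyc J` says that the classes of the crossings in `J`
contain a cycle of the graph of the diagram.
-/

set_option autoImplicit false

open Submodule

namespace Pool.Agent.TRA

open Pool.Agent.SPT

variable {ι V : Type}

/-- The labels `p` of the classes do not divide cycles: classes which contain a cycle contain a cycle
all of whose classes have the same label.  (The sets of classes with the same label are unions of blocks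
of the graph.) -/
def Splits (S : Finset ι) (Cyc : Finset ι → Prop) (p : ι → ℕ) : Prop :=
  ∀ J ⊆ S, Cyc J → ∃ q, Cyc (J.filter fun i => p i = q)

/-- The classes with the label `q` satisfy one of the following conditions.

* There are at most `K` of them.
* They are the union of a set `F` which contains no cycle and of a set `T` with at most `R` elements:
  the cycle rank is at most `R`.
* A set of these classes which contains no cycle has at most `D` elements: a block has at most `D + 1`
  vertices.
* They are series-parallel; `w i` is the row of the cut matrix which belongs to `i`. -/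
def SmallPart [DecidableEq V] [AddCommGroup V] [Module (ZMod 2) V] (S : Finset ι)
    (Cyc : Finset ι → Prop) (w : ι → V) (p : ι → ℕ) (K R D q : ℕ) : Prop :=
  (S.filter fun i => p i = q).card ≤ K ∨
  (∃ F T : Finset ι, F ⊆ (S.filter fun i => p i = q) ∧ ¬ Cyc F ∧ T.card ≤ R ∧
      ∀ i ∈ S, p i = q → i ∈ F ∨ i ∈ T) ∨
  (∀ F ⊆ S.filter fun i => p i = q, ¬ Cyc F → F.card ≤ D) ∨
  SeriesParallel ((S.filter fun i => p i = q).image w) ⊥

/-- nonvanishing for all sets of at most `K` nonzero vectors -/
def CardN (K : ℕ) : Prop :=
  ∀ (V : Type) [AddCommGroup V] [Module (ZMod 2) V] [DecidableEq V] (X : Finset V),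
    (X.erase 0).card ≤ K → NonV X

/-- nonvanishing for all sets of rank at most `R` -/
def RankN (R : ℕ) : Prop :=
  ∀ (V : Type) [AddCommGroup V] [Module (ZMod 2) V] [DecidableEq V] (X : Finset V),
    Module.finrank (ZMod 2) (span (ZMod 2) (X : Set V)) ≤ R → NonV X

/-- nonvanishing for all sets of nonzero vectors between which there are at most `D` independent
relations -/
def CorankN (D : ℕ) : Prop :=
  ∀ (V : Type) [AddCommGroup V] [Module (ZMod 2) V] [DecidableEq V] [Module.Finite (ZMod 2) V]
    (X : Finset V), (0 : V) ∉ X →
    X.card ≤ Module.finrank (ZMod 2) (span (ZMod 2) (X : Set V)) + D → NonV X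

end Pool.Agent.TRA
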