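import Pool.Agent.TRA.Main

/-!
# Draft of the hand-in `HighlyTwisted` for MP_42db45_gt (captain helper38, referee helper16)

`g` is the Gauss code of the shadow and `e` gives the signs of the crossings of a diagram of a
classical or virtual knot.  Two crossings are in the same twist class if they are interlaced with the
same other crossings (for instance: the crossings of a twist region); `S` contains one crossing of
every twist class (of crossings which are interlaced with some crossing), and `k` is the number of
these classes, with the twist numbers `c_i`.

The graph `Γ` has as vertices the closed curves which are left when all twist regions are cut, its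
edges are the crossings; the crossings of a twist class form a path, so the classes may be considered as
edges, too.  `p` is a labelling of the classes such that every cycle of `Γ` has only one label (`Splits`);
for instance, `p` numbers the blocks of `Γ`.
-/

set_option autoImplicit false

namespace Pool.Agent.TRA.Draft

open Pool.Agent.GaussJones Pool.Agent.FHP Pool.Agent.EQT Pool.Agent.SPT Pool.Agent.TRA

/-- Let every block of the graph of a diagram of a classical or virtual knot with `k ≥ 1` twist classes
be series-parallel, or have at most eight edges, or cycle rank at most four (or at most three vertices).  If the classes whose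
twist numbers are less than `(B + 1) 2 ^ 8 ^ (k + 2)` in absolute value contain no cycle (for instance if
there are no such classes), then the sum of the absolute values of the coefficients of `f` is greater
than `B`; and `f ≠ 1` for `B = 1`. -/
theorem result {n : ℕ} (g : Code n) (e : Fin n → Bool) (S : Finset (Fin n))
    (hS : Transversal (Interlaced g) S) (hne : S.Nonempty)
    (p : Fin n → ℕ) (hp : Splits S (HasCycle g) p)
    (hsm : ∀ q, SmallPart S (HasCycle g) (row (Cut g e (cutState (Interlaced g) e))) p 8 4 2 q) :
    (∀ B : ℕ, ¬ HasCycle g (S.filter fun i =>
      |twistNumber (Interlaced g) e i| < ((B + 1) * 2 ^ 8 ^ (S.card + 2) : ℕ)) →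
        (B : ℤ) < coeffSum (fPoly g e)) ∧
    (¬ HasCycle g (S.filter fun i =>
      |twistNumber (Interlaced g) e i| < (2 * 2 ^ 8 ^ (S.card + 2) : ℕ)) → fPoly g e ≠ 1) :=
  knotTwisted g e S hS hne p hp hsm

end Pool.Agent.TRA.Draft
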