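import Pool.Agent.TRA.Main
import Pool.Agent.TRL.Quot

/-!
# TRA, module Reg: diagrams whose graph has small blocks, inputs for regular sets only (helper38)
-/

set_option autoImplicit false
set_option linter.unusedSectionVars false

open Submodule Module LaurentPolynomial

namespace Pool.Agent.TRA

open Pool.Agent.SPT Pool.Agent.SPT.Rel Pool.Agent.EQT Pool.Agent.FHP Pool.Agent.Helper16.Knotoid

/-- nonvanishing for all regular sets of at most `K` nonzero vectors -/
def CardReg (K : ℕ) : Prop :=
  ∀ (V : Type) [AddCommGroup V] [Module (ZMod 2) V] [DecidableEq V] (X : Finset V),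
    TRL.Reg X → (X.erase 0).card ≤ K → NonV X

/-- nonvanishing for all regular sets of rank at most `R` -/
def RankReg (R : ℕ) : Prop :=
  ∀ (V : Type) [AddCommGroup V] [Module (ZMod 2) V] [DecidableEq V] (X : Finset V),
    TRL.Reg X → Module.finrank (ZMod 2) (span (ZMod 2) (X : Set V)) ≤ R → NonV X

/-- nonvanishing for all regular sets of nonzero vectors between which there are at most `D`
independent relations -/
def CorankReg (D : ℕ) : Prop :=
  ∀ (V : Type) [AddCommGroup V] [Module (ZMod 2) V] [DecidableEq V] [Module.Finite (ZMod 2) V]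
    (X : Finset V), TRL.Reg X → (0 : V) ∉ X →
    X.card ≤ Module.finrank (ZMod 2) (span (ZMod 2) (X : Set V)) + D → NonV X

theorem CardReg_of {K : ℕ} (h : CardN K) : CardReg K := fun V _ _ _ X _ => h V X

theorem RankReg_of {R : ℕ} (h : RankN R) : RankReg R := fun V _ _ _ X _ => h V X

theorem CorankReg_of {D : ℕ} (h : CorankN D) : CorankReg D := fun V _ _ _ _ X _ => h V X

/-- few independent relations -/
private theorem Reg_corank {V : Type} [AddCommGroup V] [Module (ZMod 2) V] [DecidableEq V]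
    [Module.Finite (ZMod 2) V] {D : ℕ} (hD : CorankReg D) {X P : Finset V}
    (h0 : (0 : V) ∉ X) (hP : P ⊆ X)
    (h : ∀ F ⊆ P, Co X F → F.card ≤ D) (Y : Finset V) (hY : Y ⊆ P) (hr : TRL.Reg Y) :
    NonV Y := by
  obtain ⟨J, hJP, hJ, hJm⟩ := exists_max X P
  refine hD V Y hr (fun h1 => h0 (hP (hY h1))) ?_
  have h1 := finrank_of_max hP hJP hJ hJm (Y \ J)
    (Finset.sdiff_subset_sdiff hY (Finset.Subset.refl J))
  have h2 := Submodule.finrank_mono (span_mono (R := ZMod 2) (Finset.coe_subset.2
    (Finset.sdiff_subset (s := Y) (t := J))))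
  have h3 := h J hJP hJ
  have h4 := Finset.card_le_card_sdiff_add_card (s := Y) (t := J)
  omega

private theorem Reg_zero {V : Type} [AddCommGroup V] [Module (ZMod 2) V] [DecidableEq V]
    (X : Finset V) (u : V → ℤ) (h : ¬ NZu X u) : ¬ NZu (X.erase 0) u := by
  rintro ⟨z, hz, hz1⟩
  refine h ⟨z, hz, ?_⟩
  have hz0 : z ≠ 0 := by
    intro h0
    rw [h0, norm_zero] at hz
    exact zero_ne_one hz
  by_cases h0 : (0 : V) ∈ X
  · have h1 : X = insert 0 (X.erase 0) := (Finset.insert_erase h0).symm
    rw [h1, PP_loop (X.erase 0) ⊥ _ 0 (Finset.notMem_erase _ _) (zero_mem _)]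
    exact mul_ne_zero (zpow_ne_zero _ hz0) hz1
  · rw [Finset.erase_eq_of_notMem h0] at hz1
    exact hz1

/-- if all spanning subsets have a nonvanishing polynomial, then the long vectors do not span -/
private theorem Reg_long {V : Type} [AddCommGroup V] [Module (ZMod 2) V] [DecidableEq V]
    (X : Finset V) (a u : V → ℤ) (C N : ℕ) (hF : Follows X a u C N) (h : ¬ NZu X u)
    (hNV : ∀ Y ⊆ X, span (ZMod 2) (Y : Set V) = span (ZMod 2) (X : Set V) → NonV Y) :
    span (ZMod 2) {v | v ∈ X ∧ (N : ℤ) ≤ |a v|} ≠ span (ZMod 2) (X : Set V) := by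
  classical
  intro hlong
  obtain ⟨Y, hY⟩ : ∃ Y : Finset V, Y = X.filter fun v => u v ≠ 0 := ⟨_, rfl⟩
  have hYX : Y ⊆ X := by
    rw [hY]
    exact Finset.filter_subset _ _
  have hlY : ∀ v ∈ X, (N : ℤ) ≤ |a v| → v ∈ Y := by
    intro v hv hl
    rw [hY, Finset.mem_filter]
    refine ⟨hv, fun h0 => ?_⟩
    refine (hF {v} (Finset.singleton_subset_iff.2 hv) ∅ (Finset.empty_subset _)).1 ?_ ?_
    · rw [Finset.sum_singleton, Finset.sum_empty, sub_zero]
      exact hl
    · rw [Finset.sum_singleton, Finset.sum_empty]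
      exact h0
  have hs : span (ZMod 2) (Y : Set V) = span (ZMod 2) (X : Set V) := by
    refine le_antisymm (span_mono (Finset.coe_subset.2 hYX)) ?_
    rw [← hlong]
    exact span_mono fun v hv => hlY v hv.1 hv.2
  obtain ⟨z, hz, hz1⟩ := hNV Y hYX hs u fun v hv _ => by
    rw [hY, Finset.mem_filter] at hv
    exact hv.2
  refine h ⟨z, hz, ?_⟩
  rw [PP_res X Y hYX hs]
  · exact hz1
  · intro v hv hvY
    have h0 : u v = 0 := by
      by_contra hne
      apply hvY
      rw [hY, Finset.mem_filter]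
      exact ⟨hv, hne⟩
    change z ^ u v = 1
    rw [h0, zpow_zero]

variable {n : ℕ} {I : Fin n → Fin n → Prop} {e : Fin n → Bool}

/-- **The class form** -/
private theorem Reg_class (hi : ∀ i, ¬ I i i) (hs : ∀ i j, I i j → I j i) {S : Finset (Fin n)}
    (hS : Transversal I S) (Cyc : Finset (Fin n) → Prop)
    (hC : ∀ J ⊆ S, (∀ i, row (Graph_R I e) i ∈ span (ZMod 2)
      (row (Graph_R I e) '' ((S \ J : Finset (Fin n)) : Set (Fin n)))) ↔ ¬ Cyc J)
    (N : ℕ) (u : (Fin n → ZMod 2) → ℤ)
    (hF : Follows (rows (Graph_R I e)) (twist (Graph_R I e) (cutState I e)) u 0 N)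
    (hu : ¬ NZu (rows (Graph_R I e)) u)
    (hreg : ∀ Y ⊆ rows (Graph_R I e), TRL.Reg Y) {K R D : ℕ} (hK : CardReg K) (hR : RankReg R)
    (hD : CorankReg D) (p : Fin n → ℕ) (hp : Splits S Cyc p)
    (hsm : ∀ q, SmallPart S Cyc (row (Graph_R I e)) p K R D q) :
    Cyc (S.filter fun i => |twistNumber I e i| < N) := by
  classical
  obtain ⟨X, hX⟩ : ∃ X, X = (rows (Graph_R I e)).erase 0 := ⟨_, rfl⟩
  have hXS : X = S.image (row (Graph_R I e)) := by
    rw [hX, Graph_image hi hs hS]
  have hinj := Graph_inj (e := e) hi hs hS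
  obtain ⟨a, ha⟩ : ∃ a, a = twist (Graph_R I e) (cutState I e) := ⟨_, rfl⟩
  have hF' : Follows X a u 0 N := by
    rw [hX, ha]
    exact fun T hT T' hT' => hF T (hT.trans (Finset.erase_subset _ _)) T'
      (hT'.trans (Finset.erase_subset _ _))
  have hu' : ¬ NZu X u := by
    rw [hX]
    exact Reg_zero _ u hu
  have habs : ∀ i, |a (row (Graph_R I e) i)| = |twistNumber I e i| := by
    intro i
    rw [ha]
    rcases Graph_twist (e := e) hi hs i with h2 | h2
    · rw [h2]
    · rw [h2, abs_neg]
  -- full rank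
  have hfull : ∀ J ⊆ S, ¬ Cyc J ↔ span (ZMod 2) (((S \ J).image (row (Graph_R I e)) :
      Finset (Fin n → ZMod 2)) : Set (Fin n → ZMod 2)) = span (ZMod 2) (X : Set _) := by
    intro J hJ
    rw [← hC J hJ, Finset.coe_image]
    constructor
    · intro h
      refine le_antisymm (span_mono ?_) (span_le.2 ?_)
      · rw [hXS, Finset.coe_image]
        exact Set.image_mono (Finset.coe_subset.2 Finset.sdiff_subset)
      · intro v hv
        rw [Finset.mem_coe, hXS, Finset.mem_image] at hv
        obtain ⟨i, -, rfl⟩ := hv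
        exact h i
    · intro h i
      rw [h]
      by_cases h0 : row (Graph_R I e) i = 0
      · rw [h0]
        exact Submodule.zero_mem _
      · refine subset_span (Finset.mem_coe.2 ?_)
        rw [hX, Finset.mem_erase]
        refine ⟨h0, ?_⟩
        unfold rows
        exact Finset.mem_image_of_mem _ (Finset.mem_univ i)
  have himage : ∀ J ⊆ S, (S \ J).image (row (Graph_R I e)) = X \ J.image (row (Graph_R I e)) := by
    intro J hJ
    ext v
    rw [Finset.mem_image, Finset.mem_sdiff, Finset.mem_image, hXS, Finset.mem_image]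
    constructor
    · rintro ⟨i, hiT, rfl⟩
      rw [Finset.mem_sdiff] at hiT
      refine ⟨⟨i, hiT.1, rfl⟩, ?_⟩
      rintro ⟨j, hj, hji⟩
      exact hiT.2 (hinj (hJ hj) hiT.1 hji ▸ hj)
    · rintro ⟨⟨i, hiS, rfl⟩, h⟩
      exact ⟨i, Finset.mem_sdiff.2 ⟨hiS, fun h2 => h ⟨i, h2, rfl⟩⟩, rfl⟩
  have hco : ∀ J ⊆ S, ¬ Cyc J ↔ Co X (J.image (row (Graph_R I e))) := by
    intro J hJ
    rw [hfull J hJ, himage J hJ]
    rfl
  -- subsets of `X` are images
  have hpre : ∀ J ⊆ X, (S.filter fun i => row (Graph_R I e) i ∈ J).image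
      (row (Graph_R I e)) = J := by
    intro J hJX
    ext v
    rw [Finset.mem_image]
    constructor
    · rintro ⟨i, hiT, rfl⟩
      exact (Finset.mem_filter.1 hiT).2
    · intro hv
      have h2 := hJX hv
      rw [hXS, Finset.mem_image] at h2
      obtain ⟨i, hiS, rfl⟩ := h2
      exact ⟨i, Finset.mem_filter.2 ⟨hiS, hv⟩, rfl⟩
  -- the labels of the rows
  obtain ⟨P, hP⟩ : ∃ P : (Fin n → ZMod 2) → ℕ, ∀ i ∈ S, P (row (Graph_R I e) i) = p i := by
    refine ⟨fun v => if h : ∃ i ∈ S, row (Graph_R I e) i = v then p h.choose else 0,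
      fun i hiS => ?_⟩
    have h : ∃ j ∈ S, row (Graph_R I e) j = row (Graph_R I e) i := ⟨i, hiS, rfl⟩
    show (if h : ∃ j ∈ S, row (Graph_R I e) j = row (Graph_R I e) i then p h.choose else 0) = p i
    rw [dif_pos h]
    exact congrArg p (hinj h.choose_spec.1 hiS h.choose_spec.2)
  have hfil : ∀ J ⊆ S, ∀ q, (J.image (row (Graph_R I e))).filter (fun v => P v = q) =
      (J.filter fun i => p i = q).image (row (Graph_R I e)) := by
    intro J hJ q
    ext v
    rw [Finset.mem_filter, Finset.mem_image, Finset.mem_image]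
    constructor
    · rintro ⟨⟨i, hiJ, rfl⟩, h⟩
      rw [hP i (hJ hiJ)] at h
      exact ⟨i, Finset.mem_filter.2 ⟨hiJ, h⟩, rfl⟩
    · rintro ⟨i, hiJ, rfl⟩
      rw [Finset.mem_filter] at hiJ
      refine ⟨⟨i, hiJ.1, rfl⟩, ?_⟩
      rw [hP i (hJ hiJ.1)]
      exact hiJ.2
  have h0X : (0 : Fin n → ZMod 2) ∉ X := by
    rw [hX]
    exact Finset.notMem_erase _ _
  have hNV : ∀ Y ⊆ X, span (ZMod 2) (Y : Set (Fin n → ZMod 2)) =
      span (ZMod 2) (X : Set (Fin n → ZMod 2)) → NonV Y := by
    have hsp : ∀ J ⊆ X, (∀ q, Co X (J.filter fun v => P v = q)) → Co X J := by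
      intro J hJ hq
      obtain ⟨T, hT⟩ : ∃ T : Finset (Fin n), T = S.filter fun i => row (Graph_R I e) i ∈ J :=
        ⟨_, rfl⟩
      have hTS : T ⊆ S := by
        rw [hT]
        exact Finset.filter_subset _ _
      have hTJ : T.image (row (Graph_R I e)) = J := by
        rw [hT]
        exact hpre J hJ
      rw [← hTJ, ← hco T hTS]
      intro hc
      obtain ⟨q, hq1⟩ := hp T hTS hc
      have h1 := hq q
      rw [← hTJ, hfil T hTS q, ← hco _ ((Finset.filter_subset _ _).trans hTS)] at h1
      exact h1 hq1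
    refine nonV_parts X P hsp (fun q => ?_)
    have hXq : X.filter (fun v => P v = q) =
        (S.filter fun i => p i = q).image (row (Graph_R I e)) := by
      rw [hXS]
      exact hfil S (Finset.Subset.refl S) q
    have hPX : (S.filter fun i => p i = q).image (row (Graph_R I e)) ⊆ X := by
      rw [← hXq]
      exact Finset.filter_subset _ _
    have hdq := parts_disjoint X P hsp q
    rw [hXq] at hdq
    rw [hXq]
    have hrg : ∀ Y ⊆ (S.filter fun i => p i = q).image (row (Graph_R I e)), TRL.Reg Y :=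
      fun Y hY => hreg Y (hY.trans (hPX.trans (by
        rw [hX]
        exact Finset.erase_subset _ _)))
    rcases hsm q with h | ⟨F, T, hF1, hF2, hF3, hF4⟩ | h | h
    · intro Y hY _
      exact hK _ Y (hrg Y hY) ((Finset.card_le_card (Finset.erase_subset _ _)).trans
        ((Finset.card_le_card hY).trans (Finset.card_image_le.trans h)))
    · intro Y hY _
      refine hR _ Y (hrg Y hY) ?_
      have h1 : span (ZMod 2) (Y : Set (Fin n → ZMod 2)) ≤
          span (ZMod 2) ((T.image (row (Graph_R I e)) : Finset _) : Set (Fin n → ZMod 2)) := by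
        refine (span_mono (Finset.coe_subset.2 hY)).trans ?_
        refine (span_part hPX
          ((hco F (hF1.trans (Finset.filter_subset _ _))).1 hF2) hdq).trans (span_mono (Finset.coe_subset.2 ?_))
        intro v hv
        rw [Finset.mem_sdiff, Finset.mem_image] at hv
        obtain ⟨⟨i, hi1, rfl⟩, hv2⟩ := hv
        rw [Finset.mem_filter] at hi1
        refine Finset.mem_image_of_mem _ ?_
        rcases hF4 i hi1.1 hi1.2 with h | h
        · exact absurd (Finset.mem_image_of_mem _ h) hv2
        · exact h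
      exact (Submodule.finrank_mono h1).trans ((finrank_span_finset_le_card _).trans
        (Finset.card_image_le.trans hF3))
    · intro Y hY _
      refine Reg_corank hD h0X hPX (fun F hF hc => ?_) Y hY (hrg Y hY)
      obtain ⟨T, hT⟩ : ∃ T : Finset (Fin n), T = (S.filter fun i => p i = q).filter fun i =>
          row (Graph_R I e) i ∈ F := ⟨_, rfl⟩
      have hTP : T ⊆ S.filter fun i => p i = q := by
        rw [hT]
        exact Finset.filter_subset _ _
      have hTF : T.image (row (Graph_R I e)) = F := by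
        ext v
        rw [Finset.mem_image]
        constructor
        · rintro ⟨i, hiT, rfl⟩
          rw [hT, Finset.mem_filter] at hiT
          exact hiT.2
        · intro hv
          obtain ⟨i, hi1, rfl⟩ := Finset.mem_image.1 (hF hv)
          exact ⟨i, by rw [hT, Finset.mem_filter]; exact ⟨hi1, hv⟩, rfl⟩
      have hTc : T.card = F.card := by
        rw [← hTF, Finset.card_image_of_injOn (hinj.mono
          (Finset.coe_subset.2 (hTP.trans (Finset.filter_subset _ _))))]
      rw [← hTc]
      refine h T hTP ?_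
      rw [hco T (hTP.trans (Finset.filter_subset _ _)), hTF]
      exact hc
    · intro Y hY hs
      exact thm_SPNonV _ _ Y h hs Y (Finset.Subset.refl Y) hY
  by_contra hc
  rw [hco _ (Finset.filter_subset _ _)] at hc
  refine Reg_long X a u 0 N hF' hu' hNV (le_antisymm (span_mono fun v hv => hv.1) ?_)
  unfold Co at hc
  rw [← hc]
  refine span_mono fun v hv => ?_
  rw [Finset.mem_coe, Finset.mem_sdiff, hXS, Finset.mem_image] at hv
  obtain ⟨⟨i, hiS, rfl⟩, hv2⟩ := hv
  refine ⟨by rw [hXS]; exact Finset.mem_image_of_mem _ hiS, ?_⟩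
  rw [habs]
  by_contra hlt
  exact hv2 (Finset.mem_image_of_mem _ (Finset.mem_filter.2 ⟨hiS, not_le.1 hlt⟩))

/-- **knotoid diagrams** -/
theorem knotoidReg {K R C : ℕ} (hK : CardReg K) (hR : RankReg R) (hC : CorankReg C)
    (D : GaussDiagram n)
    (S : Finset (Fin n)) (B : ℕ) (hS : Transversal D.Interlaced S) (hne : S.Nonempty)
    (p : Fin n → ℕ) (hp : Splits S (HasCycleO D) p)
    (hsm : ∀ q, SmallPart S (HasCycleO D)
      (row (D.Cut (cutState D.Interlaced D.sign))) p K R C q)
    (h : coeffSum D.normalizedBracket ≤ B) :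
    HasCycleO D (S.filter fun i =>
      |twistNumber D.Interlaced D.sign i| < ((B + 1) * 2 ^ 8 ^ (S.card + 2) : ℕ)) := by
  classical
  obtain ⟨i, hi⟩ := hne
  obtain ⟨j, hj⟩ := hS.1 i hi
  have hcard : (rows (D.Cut (cutState D.Interlaced D.sign))).card ≤ S.card + 1 := by
    have h1 : ((rows (Graph_R D.Interlaced D.sign)).erase 0).card ≤ S.card := by
      rw [Graph_image (Graph_irrefl D) (Graph_int_symm D) hS]
      exact Finset.card_image_le
    have h2 := Finset.pred_card_le_card_erase (s := rows (Graph_R D.Interlaced D.sign)) (a := 0)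
    have h3 : rows (D.Cut (cutState D.Interlaced D.sign)) = rows (Graph_R D.Interlaced D.sign) :=
      rfl
    rw [h3]
    omega
  have hN : NX (S.card + 1) 0 B = (B + 1) * 2 ^ 8 ^ (S.card + 2) := by
    unfold NX
    ring
  obtain ⟨u, hF, hu⟩ : ∃ u, Follows (rows (D.Cut (cutState D.Interlaced D.sign)))
      (twist (D.Cut (cutState D.Interlaced D.sign)) (cutState D.Interlaced D.sign)) u 0
      (NX (S.card + 1) 0 B) ∧ ¬ NZu (rows (D.Cut (cutState D.Interlaced D.sign))) u := by
    by_contra hno
    push Not at hno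
    exact absurd (knotoidGX (S.card + 1) 0 B n D (cutState D.Interlaced D.sign)
      ⟨⟨i, j, Or.inl hj⟩, hcard, hno⟩) (by omega)
  rw [hN] at hF
  exact Reg_class (Graph_irrefl D) (Graph_int_symm D) hS (HasCycleO D)
    (fun J hJ => knotoid_dict D hS hJ) _ u hF hu (fun Y hY => TRL.knotoid_reg D _ Y hY)
    hK hR hC p hp hsm

/-- **knot diagrams** -/
theorem knotReg {K R C : ℕ} (hK : CardReg K) (hR : RankReg R) (hC : CorankReg C)
    (g : GaussJones.Code n) (e : Fin n → Bool) (S : Finset (Fin n)) (B : ℕ)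
    (hS : Transversal (GaussJones.Interlaced g) S) (hne : S.Nonempty)
    (p : Fin n → ℕ) (hp : Splits S (HasCycle g) p)
    (hsm : ∀ q, SmallPart S (HasCycle g)
      (row (GaussJones.Cut g e (cutState (GaussJones.Interlaced g) e))) p K R C q)
    (h : coeffSum (GaussJones.fPoly g e) ≤ B) :
    HasCycle g (S.filter fun i =>
      |twistNumber (GaussJones.Interlaced g) e i| < ((B + 1) * 2 ^ 8 ^ (S.card + 2) : ℕ)) := by
  classical
  obtain ⟨i, hi⟩ := hne
  obtain ⟨j, hj⟩ := hS.1 i hi
  have hirr : ∀ i, ¬ GaussJones.Interlaced g i i := by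
    intro i h
    rcases h with h | h <;> exact lt_irrefl _ h.1
  have hsy : ∀ i j, GaussJones.Interlaced g i j → GaussJones.Interlaced g j i :=
    fun i j h => h.symm
  have hcard : (rows (GaussJones.Cut g e (cutState (GaussJones.Interlaced g) e))).card ≤
      S.card + 1 := by
    have h1 : ((rows (Graph_R (GaussJones.Interlaced g) e)).erase 0).card ≤ S.card := by
      rw [Graph_image hirr hsy hS]
      exact Finset.card_image_le
    have h2 := Finset.pred_card_le_card_erase
      (s := rows (Graph_R (GaussJones.Interlaced g) e)) (a := 0)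
    have h3 : rows (GaussJones.Cut g e (cutState (GaussJones.Interlaced g) e)) =
      rows (Graph_R (GaussJones.Interlaced g) e) := rfl
    rw [h3]
    omega
  have hN : NX (S.card + 1) 0 B = (B + 1) * 2 ^ 8 ^ (S.card + 2) := by
    unfold NX
    ring
  obtain ⟨u, hF, hu⟩ : ∃ u, Follows
      (rows (GaussJones.Cut g e (cutState (GaussJones.Interlaced g) e)))
      (twist (GaussJones.Cut g e (cutState (GaussJones.Interlaced g) e))
        (cutState (GaussJones.Interlaced g) e)) u 0
      (NX (S.card + 1) 0 B) ∧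
      ¬ NZu (rows (GaussJones.Cut g e (cutState (GaussJones.Interlaced g) e))) u := by
    by_contra hno
    push Not at hno
    exact absurd (knotGX (S.card + 1) 0 B n g e (cutState (GaussJones.Interlaced g) e)
      ⟨⟨i, j, Or.inl hj⟩, hcard, hno⟩) (by omega)
  rw [hN] at hF
  exact Reg_class hirr hsy hS (HasCycle g) (fun J hJ => knot_dict g e hS hJ) _ u hF hu
    (fun Y hY => TRL.knot_reg g e _ Y hY) hK hR hC p hp hsm

/-- **knotoid diagrams** -/
theorem knotoidTwistedReg {K R C : ℕ} (hK : CardReg K) (hR : RankReg R) (hC : CorankReg C)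
    (D : GaussDiagram n) (S : Finset (Fin n))
    (hS : Transversal D.Interlaced S) (hne : S.Nonempty) (p : Fin n → ℕ)
    (hp : Splits S (HasCycleO D) p)
    (hsm : ∀ q, SmallPart S (HasCycleO D) (row (D.Cut (cutState D.Interlaced D.sign))) p K R C q) :
    (∀ B : ℕ, ¬ HasCycleO D (S.filter fun i =>
        |twistNumber D.Interlaced D.sign i| < ((B + 1) * 2 ^ 8 ^ (S.card + 2) : ℕ)) →
      (B : ℤ) < coeffSum D.normalizedBracket) ∧
    (¬ HasCycleO D (S.filter fun i =>
        |twistNumber D.Interlaced D.sign i| < (2 * 2 ^ 8 ^ (S.card + 2) : ℕ)) →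
      D.normalizedBracket ≠ 1) := by
  have key : ∀ B : ℕ, ¬ HasCycleO D (S.filter fun i =>
        |twistNumber D.Interlaced D.sign i| < ((B + 1) * 2 ^ 8 ^ (S.card + 2) : ℕ)) →
      (B : ℤ) < coeffSum D.normalizedBracket := by
    intro B h
    by_contra hc
    exact h (knotoidReg hK hR hC D S B hS hne p hp hsm (not_lt.1 hc))
  refine ⟨key, fun h h1 => ?_⟩
  have h2 := key 1 h
  rw [h1, coeffSum_one] at h2
  exact absurd h2 (by norm_num)

/-- **knot diagrams** -/
theorem knotTwistedReg {K R C : ℕ} (hK : CardReg K) (hR : RankReg R) (hC : CorankReg C)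
    (g : GaussJones.Code n) (e : Fin n → Bool) (S : Finset (Fin n))
    (hS : Transversal (GaussJones.Interlaced g) S) (hne : S.Nonempty) (p : Fin n → ℕ)
    (hp : Splits S (HasCycle g) p)
    (hsm : ∀ q, SmallPart S (HasCycle g)
      (row (GaussJones.Cut g e (cutState (GaussJones.Interlaced g) e))) p K R C q) :
    (∀ B : ℕ, ¬ HasCycle g (S.filter fun i =>
        |twistNumber (GaussJones.Interlaced g) e i| < ((B + 1) * 2 ^ 8 ^ (S.card + 2) : ℕ)) →
      (B : ℤ) < coeffSum (GaussJones.fPoly g e)) ∧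
    (¬ HasCycle g (S.filter fun i =>
        |twistNumber (GaussJones.Interlaced g) e i| < (2 * 2 ^ 8 ^ (S.card + 2) : ℕ)) →
      GaussJones.fPoly g e ≠ 1) := by
  have key : ∀ B : ℕ, ¬ HasCycle g (S.filter fun i =>
        |twistNumber (GaussJones.Interlaced g) e i| < ((B + 1) * 2 ^ 8 ^ (S.card + 2) : ℕ)) →
      (B : ℤ) < coeffSum (GaussJones.fPoly g e) := by
    intro B h
    by_contra hc
    exact h (knotReg hK hR hC g e S B hS hne p hp hsm (not_lt.1 hc))
  refine ⟨key, fun h h1 => ?_⟩
  have h2 := key 1 h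
  rw [h1, coeffSum_one] at h2
  exact absurd h2 (by norm_num)

end Pool.Agent.TRA
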