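import Pool.Agent.TRC9.Card
import Pool.Agent.TRD.All
import Pool.Agent.TRA.Reg

/-!
# TRA, module Last: the final forms (helper38)
-/

set_option autoImplicit false

namespace Pool.Agent.TRA

open Pool.Agent.SPT Pool.Agent.EQT Pool.Agent.FHP Pool.Agent.Helper16.Knotoid

/-- **knotoid diagrams**: blocks with at most nine classes, or of cycle rank at most five, or with
forests of at most three classes only, or series-parallel -/
theorem knotoidNine (h5 : RankReg 5) {n : ℕ} (D : GaussDiagram n) (S : Finset (Fin n))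
    (hS : Transversal D.Interlaced S) (hne : S.Nonempty) (p : Fin n → ℕ)
    (hp : Splits S (HasCycleO D) p)
    (hsm : ∀ q, SmallPart S (HasCycleO D) (row (D.Cut (cutState D.Interlaced D.sign))) p 9 5 3 q) :
    (∀ B : ℕ, ¬ HasCycleO D (S.filter fun i =>
        |twistNumber D.Interlaced D.sign i| < ((B + 1) * 2 ^ 8 ^ (S.card + 2) : ℕ)) →
      (B : ℤ) < coeffSum D.normalizedBracket) ∧
    (¬ HasCycleO D (S.filter fun i =>
        |twistNumber D.Interlaced D.sign i| < (2 * 2 ^ 8 ^ (S.card + 2) : ℕ)) →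
      D.normalizedBracket ≠ 1) :=
  knotoidTwistedReg (TRC9.cardReg9 h5 TRD.corank3) h5 (CorankReg_of TRD.corank3) D S hS hne p hp hsm

/-- **knot diagrams** -/
theorem knotNine (h5 : RankReg 5) {n : ℕ} (g : GaussJones.Code n) (e : Fin n → Bool)
    (S : Finset (Fin n)) (hS : Transversal (GaussJones.Interlaced g) S) (hne : S.Nonempty)
    (p : Fin n → ℕ) (hp : Splits S (HasCycle g) p)
    (hsm : ∀ q, SmallPart S (HasCycle g)
      (row (GaussJones.Cut g e (cutState (GaussJones.Interlaced g) e))) p 9 5 3 q) :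
    (∀ B : ℕ, ¬ HasCycle g (S.filter fun i =>
        |twistNumber (GaussJones.Interlaced g) e i| < ((B + 1) * 2 ^ 8 ^ (S.card + 2) : ℕ)) →
      (B : ℤ) < coeffSum (GaussJones.fPoly g e)) ∧
    (¬ HasCycle g (S.filter fun i =>
        |twistNumber (GaussJones.Interlaced g) e i| < (2 * 2 ^ 8 ^ (S.card + 2) : ℕ)) →
      GaussJones.fPoly g e ≠ 1) :=
  knotTwistedReg (TRC9.cardReg9 h5 TRD.corank3) h5 (CorankReg_of TRD.corank3) g e S hS hne p hp hsm

end Pool.Agent.TRA
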