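import Pool.Agent.TRA.Defs
import Pool.Agent.SPT.SumNV

/-!
# TRA, module Sum: sets of vectors whose blocks are small (helper38)
-/

set_option autoImplicit false
set_option linter.unusedSectionVars false

open Submodule Module

namespace Pool.Agent.TRA

open Pool.Agent.SPT

section

variable {V : Type} [AddCommGroup V] [Module (ZMod 2) V] [DecidableEq V]

/-- `J` can be removed from `X` without changing the span -/
def Co (X J : Finset V) : Prop := span (ZMod 2) ((X \ J : Finset V) : Set V) = span (ZMod 2) (X : Set V)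

theorem Co_anti {X J J' : Finset V} (h : J' ⊆ J) (hJ : Co X J) : Co X J' := by
  refine le_antisymm (span_mono (Finset.coe_subset.2 Finset.sdiff_subset)) ?_
  rw [← hJ]
  exact span_mono (Finset.coe_subset.2 (Finset.sdiff_subset_sdiff (Finset.Subset.refl X) h))

theorem Co_empty (X : Finset V) : Co X ∅ := by
  unfold Co
  rw [Finset.sdiff_empty]

/-- a largest subset of `P` which can be removed -/
theorem exists_max (X P : Finset V) : ∃ J ⊆ P, Co X J ∧ ∀ i ∈ P, i ∉ J → ¬ Co X (insert i J) := by
  classical
  obtain ⟨J, hJ, hmax⟩ := Finset.exists_max_image (P.powerset.filter fun J => Co X J)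
    Finset.card ⟨∅, by
      rw [Finset.mem_filter]
      exact ⟨Finset.empty_mem_powerset P, Co_empty X⟩⟩
  rw [Finset.mem_filter, Finset.mem_powerset] at hJ
  refine ⟨J, hJ.1, hJ.2, fun i hi hiJ hc => ?_⟩
  have h1 := hmax (insert i J) (by
    rw [Finset.mem_filter, Finset.mem_powerset]
    exact ⟨Finset.insert_subset hi hJ.1, hc⟩)
  rw [Finset.card_insert_of_notMem hiJ] at h1
  omega

/-- the vectors of `P` outside of the largest removable subset are independent modulo the others -/
theorem not_mem_of_max {X P J : Finset V} (hP : P ⊆ X) (hJP : J ⊆ P) (hJ : Co X J)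
    (hmax : ∀ i ∈ P, i ∉ J → ¬ Co X (insert i J)) (t : V) (ht : t ∈ P \ J) (A : Finset V)
    (hA : A ⊆ P \ J) (htA : t ∉ A) :
    t ∉ span (ZMod 2) (((X \ P : Finset V) : Set V) ∪ (A : Set V)) := by
  intro h
  rw [Finset.mem_sdiff] at ht
  apply hmax t ht.1 ht.2
  have h1 : t ∈ span (ZMod 2) ((X \ insert t J : Finset V) : Set V) := by
    refine span_mono ?_ h
    intro v hv
    rcases hv with hv | hv
    · rw [Finset.mem_coe, Finset.mem_sdiff] at hv ⊢
      refine ⟨hv.1, fun h2 => hv.2 ?_⟩
      rcases Finset.mem_insert.1 h2 with h3 | h3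
      · rw [h3]
        exact ht.1
      · exact hJP h3
    · have h2 := Finset.mem_sdiff.1 (hA hv)
      rw [Finset.mem_coe, Finset.mem_sdiff]
      refine ⟨hP h2.1, fun h3 => ?_⟩
      rcases Finset.mem_insert.1 h3 with h4 | h4
      · rw [h4] at hv
        exact htA hv
      · exact h2.2 h4
  unfold Co
  refine le_antisymm (span_mono (Finset.coe_subset.2 Finset.sdiff_subset)) ?_
  rw [← hJ, span_le]
  intro v hv
  rw [Finset.mem_coe, Finset.mem_sdiff] at hv
  by_cases hvt : v = t
  · rw [hvt]
    exact h1
  · refine subset_span ?_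
    rw [Finset.mem_coe, Finset.mem_sdiff, Finset.mem_insert, not_or]
    exact ⟨hv.1, hvt, hv.2⟩

theorem disjoint_of_max {X P J : Finset V} (hP : P ⊆ X) (hJP : J ⊆ P) (hJ : Co X J)
    (hmax : ∀ i ∈ P, i ∉ J → ¬ Co X (insert i J)) :
    Disjoint (span (ZMod 2) ((X \ P : Finset V) : Set V))
      (span (ZMod 2) ((P \ J : Finset V) : Set V)) := by
  have key : ∀ A : Finset V, A ⊆ P \ J → ∀ z ∈ span (ZMod 2) ((X \ P : Finset V) : Set V),
      z ∈ span (ZMod 2) (A : Set V) → z = 0 := by
    intro A
    induction A using Finset.induction_on with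
    | empty =>
      intro _ z _ hz
      rw [Finset.coe_empty, span_empty, mem_bot] at hz
      exact hz
    | insert t A htA ih =>
      intro hA z hzX hz
      rw [Finset.coe_insert] at hz
      by_cases hzA : z ∈ span (ZMod 2) (A : Set V)
      · exact ih ((Finset.subset_insert t A).trans hA) z hzX hzA
      · exfalso
        have h1 := mem_span_insert_exchange hz hzA
        refine not_mem_of_max hP hJP hJ hmax t (hA (Finset.mem_insert_self t A)) A
          ((Finset.subset_insert t A).trans hA) htA ?_
        rw [mem_span_insert] at h1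
        obtain ⟨a, w, hw, h1⟩ := h1
        rw [h1]
        refine add_mem (smul_mem _ a ?_) ?_
        · exact span_mono Set.subset_union_left hzX
        · exact span_mono Set.subset_union_right hw
  rw [disjoint_def]
  intro z hz1 hz2
  exact key (P \ J) (Finset.Subset.refl _) z hz1 hz2

/-- if removable sets can be found separately in `P` and in `X \ P`, then the spans are independent -/
theorem disjoint_split {X P : Finset V} (hP : P ⊆ X)
    (h : ∀ J ⊆ P, ∀ J' ⊆ X \ P, Co X J → Co X J' → Co X (J ∪ J')) :
    Disjoint (span (ZMod 2) (P : Set V)) (span (ZMod 2) ((X \ P : Finset V) : Set V)) := by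
  obtain ⟨J, hJP, hJ, hJm⟩ := exists_max X P
  obtain ⟨J', hJP', hJ', hJm'⟩ := exists_max X (X \ P)
  have h1 := disjoint_of_max hP hJP hJ hJm
  have h2 := disjoint_of_max Finset.sdiff_subset hJP' hJ' hJm'
  have h3 : X \ (X \ P) = P := by
    rw [sdiff_sdiff_right_self]
    exact Finset.inter_eq_right.2 hP
  rw [h3] at h2
  have h4 : span (ZMod 2) ((X \ (J ∪ J') : Finset V) : Set V) = span (ZMod 2) (X : Set V) :=
    h J hJP J' hJP' hJ hJ'
  have h5 : X \ (J ∪ J') ⊆ (P \ J) ∪ ((X \ P) \ J') := by
    intro v hv
    rw [Finset.mem_sdiff, Finset.mem_union, not_or] at hv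
    rw [Finset.mem_union, Finset.mem_sdiff, Finset.mem_sdiff, Finset.mem_sdiff]
    by_cases hvP : v ∈ P
    · exact Or.inl ⟨hvP, hv.2.1⟩
    · exact Or.inr ⟨⟨hv.1, hvP⟩, hv.2.2⟩
  have h6 : span (ZMod 2) (X : Set V) ≤ span (ZMod 2) ((P \ J : Finset V) : Set V) ⊔
      span (ZMod 2) (((X \ P) \ J' : Finset V) : Set V) := by
    rw [← h4, ← span_union, ← Finset.coe_union]
    exact span_mono (Finset.coe_subset.2 h5)
  have h7 : span (ZMod 2) (P : Set V) ≤ span (ZMod 2) ((P \ J : Finset V) : Set V) := by
    intro z hz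
    have hzX := h6 (span_mono (Finset.coe_subset.2 hP) hz)
    obtain ⟨a, ha, b, hb, hab⟩ := mem_sup.1 hzX
    have hb2 : b ∈ span (ZMod 2) (P : Set V) := by
      have : b = z - a := by
        rw [← hab]
        abel
      rw [this]
      exact sub_mem hz (span_mono (Finset.coe_subset.2 Finset.sdiff_subset) ha)
    have hb0 : b = 0 := (disjoint_def.1 h2) b hb2 hb
    rw [← hab, hb0, add_zero]
    exact ha
  exact h1.symm.mono_left h7

/-- removing `F` from a part which is independent of the others -/
theorem span_part {X P F : Finset V} (hP : P ⊆ X) (hc : Co X F)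
    (hd : Disjoint (span (ZMod 2) (P : Set V)) (span (ZMod 2) ((X \ P : Finset V) : Set V))) :
    span (ZMod 2) (P : Set V) ≤ span (ZMod 2) ((P \ F : Finset V) : Set V) := by
  intro z hz
  have h1 : z ∈ span (ZMod 2) ((X \ F : Finset V) : Set V) := by
    rw [hc]
    exact span_mono (Finset.coe_subset.2 hP) hz
  have h2 : X \ F ⊆ (P \ F) ∪ (X \ P) := by
    intro v hv
    rw [Finset.mem_sdiff] at hv
    rw [Finset.mem_union, Finset.mem_sdiff, Finset.mem_sdiff]
    by_cases hvP : v ∈ P
    · exact Or.inl ⟨hvP, hv.2⟩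
    · exact Or.inr ⟨hv.1, hvP⟩
  have h3 := span_mono (R := ZMod 2) (Finset.coe_subset.2 h2) h1
  rw [Finset.coe_union, span_union] at h3
  obtain ⟨a, ha, b, hb, hab⟩ := mem_sup.1 h3
  have hb2 : b ∈ span (ZMod 2) (P : Set V) := by
    have : b = z - a := by
      rw [← hab]
      abel
    rw [this]
    exact sub_mem hz (span_mono (Finset.coe_subset.2 Finset.sdiff_subset) ha)
  have hb0 : b = 0 := (disjoint_def.1 hd) b hb2 hb
  rw [← hab, hb0, add_zero]
  exact ha

/-- the spans of the parts are independent -/
theorem parts_disjoint (X : Finset V) (p : V → ℕ)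
    (hsp : ∀ J ⊆ X, (∀ q, Co X (J.filter fun v => p v = q)) → Co X J) (q : ℕ) :
    Disjoint (span (ZMod 2) ((X.filter fun v => p v = q : Finset V) : Set V))
      (span (ZMod 2) ((X \ X.filter fun v => p v = q : Finset V) : Set V)) := by
  refine disjoint_split (Finset.filter_subset _ _) fun J hJ J' hJ' hc hc' => ?_
  refine hsp (J ∪ J') (Finset.union_subset (hJ.trans (Finset.filter_subset _ _))
    (hJ'.trans Finset.sdiff_subset)) fun q' => ?_
  by_cases hq : q' = q
  · refine Co_anti ?_ hc
    intro v hv
    rw [Finset.mem_filter, Finset.mem_union] at hv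
    rcases hv.1 with h | h
    · exact h
    · exfalso
      have h1 := Finset.mem_sdiff.1 (hJ' h)
      exact h1.2 (Finset.mem_filter.2 ⟨h1.1, hv.2.trans hq⟩)
  · refine Co_anti ?_ hc'
    intro v hv
    rw [Finset.mem_filter, Finset.mem_union] at hv
    rcases hv.1 with h | h
    · exfalso
      have h1 := Finset.mem_filter.1 (hJ h)
      exact hq (hv.2.symm.trans h1.2)
    · exact h

/-- **Nonvanishing for sets with small parts** -/
theorem nonV_parts (X : Finset V) (p : V → ℕ)
    (hsp : ∀ J ⊆ X, (∀ q, Co X (J.filter fun v => p v = q)) → Co X J)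
    (hsm : ∀ q, ∀ Y ⊆ X.filter fun v => p v = q, span (ZMod 2) (Y : Set V) =
      span (ZMod 2) ((X.filter fun v => p v = q : Finset V) : Set V) → NonV Y)
    (Y : Finset V) (hY : Y ⊆ X) (hYX : span (ZMod 2) (Y : Set V) = span (ZMod 2) (X : Set V)) :
    NonV Y := by
  have hdis := parts_disjoint X p hsp
  have hspan : ∀ q, span (ZMod 2) ((Y.filter fun v => p v = q : Finset V) : Set V) =
      span (ZMod 2) ((X.filter fun v => p v = q : Finset V) : Set V) := by
    intro q
    refine le_antisymm (span_mono (Finset.coe_subset.2 (Finset.filter_subset_filter _ hY))) ?_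
    have hc : Co X ((X.filter fun v => p v = q) \ Y) := by
      unfold Co
      refine le_antisymm (span_mono (Finset.coe_subset.2 Finset.sdiff_subset)) ?_
      rw [← hYX]
      refine span_mono (Finset.coe_subset.2 fun v hv => ?_)
      rw [Finset.mem_sdiff, Finset.mem_sdiff]
      exact ⟨hY hv, fun h => h.2 hv⟩
    refine (span_part (Finset.filter_subset _ _) hc (hdis q)).trans
      (span_mono (Finset.coe_subset.2 fun v hv => ?_))
    rw [Finset.mem_sdiff, Finset.mem_sdiff, not_and, not_not] at hv
    rw [Finset.mem_filter]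
    exact ⟨hv.2 hv.1, (Finset.mem_filter.1 hv.1).2⟩
  have hall : ∀ (Q : Finset ℕ) (Z : Finset V), Z ⊆ X → (∀ v ∈ Z, p v ∈ Q) →
      (∀ q ∈ Q, span (ZMod 2) ((Z.filter fun v => p v = q : Finset V) : Set V) =
        span (ZMod 2) ((X.filter fun v => p v = q : Finset V) : Set V)) → NonV Z := by
    intro Q
    induction Q using Finset.induction_on with
    | empty =>
      intro Z _ hZQ _
      have h0 : Z = ∅ := by
        rw [Finset.eq_empty_iff_forall_notMem]
        intro v hv
        exact absurd (hZQ v hv) (Finset.notMem_empty _)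
      rw [h0]
      intro u _
      refine ⟨1, norm_one, ?_⟩
      unfold PP
      rw [Finset.powerset_empty, Finset.sum_singleton,
        if_pos (show Spans ⊥ (∅ : Finset V) ∅ from rfl), Finset.prod_empty]
      exact one_ne_zero
    | insert q Q hqQ ih =>
      intro Z hZX hZQ hZs
      have h1 : Z = (Z.filter fun v => p v = q) ∪ (Z.filter fun v => ¬ p v = q) :=
        (Finset.filter_union_filter_not_eq _ _).symm
      rw [h1]
      refine thm_Sum V _ _ ?_ (hsm q _ ?_ (hZs q (Finset.mem_insert_self q Q))) (ih _ ?_ ?_ ?_)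
      · refine (hdis q).mono (span_mono (Finset.coe_subset.2 (Finset.filter_subset_filter _ hZX)))
          (span_mono (Finset.coe_subset.2 ?_))
        intro v hv
        rw [Finset.mem_filter] at hv
        rw [Finset.mem_sdiff, Finset.mem_filter, not_and]
        exact ⟨hZX hv.1, fun _ => hv.2⟩
      · exact Finset.filter_subset_filter _ hZX
      · exact (Finset.filter_subset _ _).trans hZX
      · intro v hv
        rw [Finset.mem_filter] at hv
        rcases Finset.mem_insert.1 (hZQ v hv.1) with h | h
        · exact absurd h hv.2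
        · exact h
      · intro q' hq'
        have h2 : (Z.filter fun v => ¬ p v = q).filter (fun v => p v = q') =
            Z.filter fun v => p v = q' := by
          rw [Finset.filter_filter]
          refine Finset.filter_congr fun v _ => ⟨fun h => h.2, fun h => ⟨fun h3 => ?_, h⟩⟩
          rw [← h3, h] at hqQ
          exact hqQ hq'
        rw [h2]
        exact hZs q' (Finset.mem_insert_of_mem hq')
  exact hall (X.image p) Y hY (fun v hv => Finset.mem_image_of_mem p (hY hv)) fun q _ => hspan q

/-- independent vectors -/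
theorem finrank_of_max {X P J : Finset V} (hP : P ⊆ X) (hJP : J ⊆ P) (hJ : Co X J)
    (hmax : ∀ i ∈ P, i ∉ J → ¬ Co X (insert i J)) (A : Finset V) (hA : A ⊆ P \ J) :
    finrank (ZMod 2) (span (ZMod 2) (A : Set V)) = A.card := by
  have key : ∀ A : Finset V, A ⊆ P \ J → LinearIndepOn (ZMod 2) id (A : Set V) := by
    intro A
    induction A using Finset.induction_on with
    | empty =>
      intro _
      rw [Finset.coe_empty]
      exact linearIndepOn_empty _ _
    | insert t A htA ih =>
      intro hA
      rw [Finset.coe_insert]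
      refine (ih ((Finset.subset_insert t A).trans hA)).id_insert fun h => ?_
      exact not_mem_of_max hP hJP hJ hmax t (hA (Finset.mem_insert_self t A)) A
        ((Finset.subset_insert t A).trans hA) htA (span_mono Set.subset_union_right h)
  exact finrank_span_finset_eq_card (key A hA)

/-- few independent relations -/
theorem nonV_corank [Module.Finite (ZMod 2) V] {D : ℕ} (hD : CorankN D) {X P : Finset V} (h0 : (0 : V) ∉ X) (hP : P ⊆ X)
    (h : ∀ F ⊆ P, Co X F → F.card ≤ D) (Y : Finset V) (hY : Y ⊆ P) : NonV Y := by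
  obtain ⟨J, hJP, hJ, hJm⟩ := exists_max X P
  refine hD V Y (fun h1 => h0 (hP (hY h1))) ?_
  have h1 := finrank_of_max hP hJP hJ hJm (Y \ J)
    (Finset.sdiff_subset_sdiff hY (Finset.Subset.refl J))
  have h2 := Submodule.finrank_mono (span_mono (R := ZMod 2) (Finset.coe_subset.2
    (Finset.sdiff_subset (s := Y) (t := J))))
  have h3 := h J hJP hJ
  have h4 := Finset.card_le_card_sdiff_add_card (s := Y) (t := J)
  omega

end

end Pool.Agent.TRA
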